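import Mathlib

/-! Row A1: the Perron vector of a positive real matrix (helper27). -/

namespace Pool.Agent.MDC

open Matrix

variable {n : Type*} [Fintype n]

theorem mulVec_pos_of {M : Matrix n n ℝ} (h : ∀ i j, 0 < M i j) {x : n → ℝ}
    (hx : ∀ i, 0 ≤ x i) (hx0 : x ≠ 0) (i : n) : 0 < (M *ᵥ x) i := by
  obtain ⟨j, hj⟩ : ∃ j, x j ≠ 0 := by
    by_contra hc
    push Not at hc
    exact hx0 (funext hc)
  have hj' : 0 < x j := lt_of_le_of_ne (hx j) (Ne.symm hj)
  have : M i j * x j ≤ (M *ᵥ x) i := by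
    change M i j * x j ≤ ∑ k, M i k * x k
    exact Finset.single_le_sum (f := fun k => M i k * x k)
      (fun k _ => mul_nonneg (h i k).le (hx k)) (Finset.mem_univ j)
  exact lt_of_lt_of_le (mul_pos (h i j) hj') this

/-- A positive real matrix has a positive eigenvector. -/
theorem perron_exists [Nonempty n] (M : Matrix n n ℝ) (h : ∀ i j, 0 < M i j) :
    ∃ (v : n → ℝ) (l : ℝ), (∀ i, 0 < v i) ∧ 0 < l ∧ M *ᵥ v = l • v := by
  classical
  let K : Set ((n → ℝ) × ℝ) := {p | (∀ i, 0 ≤ p.1 i) ∧ ∑ i, p.1 i = 1 ∧ 0 ≤ p.2 ∧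
    ∀ i, p.2 * p.1 i ≤ (M *ᵥ p.1) i}
  have hcont : ∀ i, Continuous (fun p : (n → ℝ) × ℝ => (M *ᵥ p.1) i) := by
    intro i
    change Continuous (fun p : (n → ℝ) × ℝ => ∑ k, M i k * p.1 k)
    fun_prop
  have hclosed : IsClosed K := by
    have h1 : IsClosed {p : (n → ℝ) × ℝ | ∀ i, 0 ≤ p.1 i} := by
      have : {p : (n → ℝ) × ℝ | ∀ i, 0 ≤ p.1 i} = ⋂ i, {p | 0 ≤ p.1 i} := by
        ext p; simp
      rw [this]
      exact isClosed_iInter fun i => isClosed_le continuous_const (by fun_prop)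
    have h2 : IsClosed {p : (n → ℝ) × ℝ | ∑ i, p.1 i = 1} :=
      isClosed_eq (by fun_prop) continuous_const
    have h3 : IsClosed {p : (n → ℝ) × ℝ | 0 ≤ p.2} :=
      isClosed_le continuous_const continuous_snd
    have h4 : IsClosed {p : (n → ℝ) × ℝ | ∀ i, p.2 * p.1 i ≤ (M *ᵥ p.1) i} := by
      have : {p : (n → ℝ) × ℝ | ∀ i, p.2 * p.1 i ≤ (M *ᵥ p.1) i} =
          ⋂ i, {p | p.2 * p.1 i ≤ (M *ᵥ p.1) i} := by
        ext p; simp
      rw [this]
      exact isClosed_iInter fun i => isClosed_le (by fun_prop) (hcont i)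
    exact h1.inter (h2.inter (h3.inter h4))
  let B : ℝ := ∑ i, ∑ j, M i j
  have hle1 : ∀ p ∈ K, ∀ i, p.1 i ≤ 1 := by
    rintro p ⟨hp0, hp1, -, -⟩ i
    rw [← hp1]
    exact Finset.single_le_sum (fun k _ => hp0 k) (Finset.mem_univ i)
  have hB : ∀ p ∈ K, p.2 ≤ B := by
    intro p hp
    obtain ⟨hp0, hp1, hp2, hp3⟩ := id hp
    calc p.2 = p.2 * ∑ i, p.1 i := by rw [hp1, mul_one]
      _ = ∑ i, p.2 * p.1 i := Finset.mul_sum _ _ _
      _ ≤ ∑ i, (M *ᵥ p.1) i := Finset.sum_le_sum fun i _ => hp3 i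
      _ = ∑ i, ∑ j, M i j * p.1 j := rfl
      _ ≤ ∑ i, ∑ j, M i j := Finset.sum_le_sum fun i _ => Finset.sum_le_sum fun j _ =>
          mul_le_of_le_one_right (h i j).le (hle1 p hp j)
  have hcomp : IsCompact K := by
    refine IsCompact.of_isClosed_subset (isCompact_Icc (a := ((0 : n → ℝ), (0 : ℝ)))
      (b := ((fun _ => (1 : ℝ)), B))) hclosed ?_
    intro p hp
    exact ⟨⟨fun i => hp.1 i, hp.2.2.1⟩, ⟨fun i => hle1 p hp i, hB p hp⟩⟩
  have hne : K.Nonempty := by
    refine ⟨((fun _ => (Fintype.card n : ℝ)⁻¹), 0), fun i => by positivity, ?_, le_refl _, ?_⟩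
    · simp
    · intro i
      simp only [zero_mul]
      change 0 ≤ ∑ k, M i k * _
      exact Finset.sum_nonneg fun k _ => mul_nonneg (h i k).le (by positivity)
  obtain ⟨⟨x, l⟩, hxl, hmax⟩ := hcomp.exists_isMaxOn hne continuous_snd.continuousOn
  obtain ⟨hx0, hx1, hl0, hxM⟩ := id hxl
  simp only at hx0 hx1 hl0 hxM
  have hxne : x ≠ 0 := by
    rintro rfl
    simp at hx1
  have hMx : ∀ i, 0 < (M *ᵥ x) i := mulVec_pos_of h hx0 hxne
  -- equality
  have heq : M *ᵥ x = l • x := by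
    by_contra hneq
    let z : n → ℝ := M *ᵥ x - l • x
    have hz0 : ∀ i, 0 ≤ z i := fun i => by
      have := hxM i
      simp only [z, Pi.sub_apply, Pi.smul_apply, smul_eq_mul]
      linarith
    have hzne : z ≠ 0 := sub_ne_zero.2 hneq
    have hMz := mulVec_pos_of h hz0 hzne
    let y : n → ℝ := M *ᵥ x
    have hMy : ∀ i, l * y i < (M *ᵥ y) i := by
      intro i
      have h1 := hMz i
      have h2 : M *ᵥ z = M *ᵥ y - l • y := by
        simp only [z, y, Matrix.mulVec_sub, Matrix.mulVec_smul]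
      rw [h2] at h1
      simp only [Pi.sub_apply, Pi.smul_apply, smul_eq_mul] at h1
      linarith
    -- a slightly larger eigenvalue bound
    obtain ⟨i0, hi0⟩ := Finite.exists_min (fun i => ((M *ᵥ y) i - l * y i) / y i)
    let δ := ((M *ᵥ y) i0 - l * y i0) / y i0
    have hδ : 0 < δ := div_pos (by linarith [hMy i0]) (hMx i0)
    have hδ' : ∀ i, (l + δ) * y i ≤ (M *ᵥ y) i := by
      intro i
      have h1 : δ ≤ ((M *ᵥ y) i - l * y i) / y i := hi0 i
      rw [le_div_iff₀ (hMx i)] at h1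
      nlinarith
    let s := ∑ i, y i
    have hs : 0 < s := Finset.sum_pos (fun i _ => hMx i) Finset.univ_nonempty
    have hmem : (((s⁻¹ • y : n → ℝ)), l + δ) ∈ K := by
      refine ⟨fun i => ?_, ?_, by linarith [hl0, hδ.le], fun i => ?_⟩
      · exact mul_nonneg (inv_nonneg.2 hs.le) (hMx i).le
      · simp only [Pi.smul_apply, smul_eq_mul]
        rw [← Finset.mul_sum]
        exact inv_mul_cancel₀ hs.ne'
      · simp only [Matrix.mulVec_smul, Pi.smul_apply, smul_eq_mul]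
        have := mul_le_mul_of_nonneg_left (hδ' i) (inv_nonneg.2 hs.le)
        linarith
    have := hmax hmem
    simp only [Set.mem_setOf_eq] at this
    linarith
  have hlpos : 0 < l := by
    obtain ⟨i⟩ := (inferInstance : Nonempty n)
    have h1 := hMx i
    rw [heq] at h1
    simp only [Pi.smul_apply, smul_eq_mul] at h1
    exact pos_of_mul_pos_left h1 (hx0 i)
  refine ⟨x, l, fun i => ?_, hlpos, heq⟩
  have h1 := hMx i
  rw [heq] at h1
  simp only [Pi.smul_apply, smul_eq_mul] at h1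
  exact pos_of_mul_pos_right h1 hlpos.le

/-- Two positive eigenvectors of a positive matrix: if they are not proportional then the
eigenvalues are strictly ordered. -/
theorem perron_aux [Nonempty n] (M : Matrix n n ℝ) (h : ∀ i j, 0 < M i j) {v w : n → ℝ}
    {l m : ℝ} (hv : ∀ i, 0 < v i) (hw : ∀ i, 0 < w i) (hMv : M *ᵥ v = l • v)
    (hMw : M *ᵥ w = m • w) : (∃ c : ℝ, 0 < c ∧ w = c • v) ∨ l < m := by
  obtain ⟨i0, hi0⟩ := Finite.exists_min (fun i => w i / v i)
  let t := w i0 / v i0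
  have ht : 0 < t := div_pos (hw i0) (hv i0)
  let z := w - t • v
  have hz : ∀ i, 0 ≤ z i := by
    intro i
    have h1 : t ≤ w i / v i := hi0 i
    rw [le_div_iff₀ (hv i)] at h1
    simp only [z, Pi.sub_apply, Pi.smul_apply, smul_eq_mul]
    linarith
  by_cases hz0 : z = 0
  · left
    exact ⟨t, ht, sub_eq_zero.1 hz0⟩
  · right
    have h1 := mulVec_pos_of h hz hz0 i0
    have h2 : M *ᵥ z = m • w - t • (l • v) := by
      simp only [z, Matrix.mulVec_sub, Matrix.mulVec_smul, hMv, hMw]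
    rw [h2] at h1
    simp only [Pi.sub_apply, Pi.smul_apply, smul_eq_mul] at h1
    have h3 : t * v i0 = w i0 := div_mul_cancel₀ _ (hv i0).ne'
    have h4 : 0 < (m - l) * w i0 := by
      have : t * (l * v i0) = l * w i0 := by rw [← h3]; ring
      rw [this] at h1
      linarith
    have := pos_of_mul_pos_left h4 (hw i0).le
    linarith

/-- Uniqueness of the Perron vector. -/
theorem perron_unique [Nonempty n] (M : Matrix n n ℝ) (h : ∀ i j, 0 < M i j) {v w : n → ℝ}
    {l m : ℝ} (hv : ∀ i, 0 < v i) (hw : ∀ i, 0 < w i) (hMv : M *ᵥ v = l • v)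
    (hMw : M *ᵥ w = m • w) : ∃ c : ℝ, 0 < c ∧ w = c • v := by
  rcases perron_aux M h hv hw hMv hMw with h1 | h1
  · exact h1
  · rcases perron_aux M h hw hv hMw hMv with ⟨c, hc, h2⟩ | h2
    · refine ⟨c⁻¹, inv_pos.2 hc, ?_⟩
      rw [h2, smul_smul, inv_mul_cancel₀ hc.ne', one_smul]
    · exact absurd h1 (not_lt.2 h2.le)

/-- A nonnegative matrix commuting with a positive one has the Perron vector as an
eigenvector. -/
theorem perron_comm [Nonempty n] (M : Matrix n n ℝ) (h : ∀ i j, 0 < M i j) {v : n → ℝ}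
    {l : ℝ} (hv : ∀ i, 0 < v i) (hl : 0 < l) (hMv : M *ᵥ v = l • v) (N : Matrix n n ℝ)
    (hN : ∀ i j, 0 ≤ N i j) (hc : M * N = N * M) : ∃ d : ℝ, 0 ≤ d ∧ N *ᵥ v = d • v := by
  have hNv : ∀ i, 0 ≤ (N *ᵥ v) i := fun i =>
    Finset.sum_nonneg fun k _ => mul_nonneg (hN i k) (hv k).le
  by_cases h0 : N *ᵥ v = 0
  · exact ⟨0, le_refl _, by rw [h0, zero_smul]⟩
  · have h1 : M *ᵥ (N *ᵥ v) = l • (N *ᵥ v) := by
      rw [Matrix.mulVec_mulVec, hc, ← Matrix.mulVec_mulVec, hMv, Matrix.mulVec_smul]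
    have h2 := mulVec_pos_of h hNv h0
    have h3 : ∀ i, 0 < (N *ᵥ v) i := by
      intro i
      have := h2 i
      rw [h1] at this
      simp only [Pi.smul_apply, smul_eq_mul] at this
      exact pos_of_mul_pos_right this hl.le
    obtain ⟨c, hc, h4⟩ := perron_unique M h hv h3 hMv h1
    exact ⟨c, hc.le, h4⟩

end Pool.Agent.MDC
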