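import Pool.Agent.MDC.Defs

/-! # Row A5 of the count: the largest quotients in `S`, the equality case -/

open CategoryTheory MonoidalCategory Limits ZeroObject

universe w v u

set_option linter.unusedSectionVars false

noncomputable section

namespace Pool.Agent.MDC

open MUG

section Quot

variable {k : Type*} [Field k] {C : Type u} [Category.{v} C] [Abelian C] [Linear k C]

/-- The largest quotient of `M` for a property of maps out of `M`. -/
theorem exists_quot_of_finCat (hC : FinCat k C) (M : C) (R : ∀ Y : C, (M ⟶ Y) → Prop)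
    (h0 : ∀ Y : C, IsZero Y → R Y 0)
    (hmono : ∀ (Y Y' : C) (g : M ⟶ Y) (i : Y ⟶ Y'), Mono i → R Y' (g ≫ i) → R Y g)
    (hprod : ∀ (Y Y' : C) (g : M ⟶ Y) (g' : M ⟶ Y'), R Y g → R Y' g' →
      R (Y ⊞ Y') (biprod.lift g g')) :
    ∃ (C' : C) (p : M ⟶ C'), Epi p ∧ R C' p ∧
      ∀ (Y : C) (g : M ⟶ Y), R Y g → ∃ h, p ≫ h = g := by
  classical
  obtain ⟨F⟩ := exists_fam hC
  let A : ℕ → Prop := fun n => ∃ (Y : C) (p : M ⟶ Y), Epi p ∧ R Y p ∧
    n + F.len k Y = F.len k M
  have hex : ∃ n, A n := by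
    refine ⟨F.len k M, 0, 0, ?_, h0 _ (isZero_zero C), ?_⟩
    · exact ⟨fun _ _ _ => (isZero_zero C).eq_of_src _ _⟩
    · rw [(F.len_eq_zero_iff hC _).2 (isZero_zero C), add_zero]
  obtain ⟨Y₀, p, hp, hR, hn⟩ := Nat.find_spec hex
  refine ⟨Y₀, p, hp, hR, fun Y g hg => ?_⟩
  have h1 := hprod _ _ p g hR hg
  let l := biprod.lift p g
  have h2 : R (Abelian.image l) (Abelian.factorThruImage l) := by
    refine hmono _ _ _ (Abelian.image.ι l) inferInstance ?_
    rw [Abelian.image.fac]
    exact h1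
  have h3 : Abelian.factorThruImage l ≫ (Abelian.image.ι l ≫ biprod.fst) = p := by
    rw [← Category.assoc, Abelian.image.fac]
    exact biprod.lift_fst _ _
  have h4 : Epi (Abelian.image.ι l ≫ biprod.fst) := by
    have : Epi (Abelian.factorThruImage l ≫ (Abelian.image.ι l ≫ biprod.fst)) := by
      rw [h3]; exact hp
    exact epi_of_epi (Abelian.factorThruImage l) _
  have h5 : F.len k (Abelian.image l) ≤ F.len k M := F.len_epi hC (Abelian.factorThruImage l)
  have h6 : F.len k (Abelian.image l) ≤ F.len k Y₀ := by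
    by_contra hlt
    push Not at hlt
    have h7 : A (F.len k M - F.len k (Abelian.image l)) :=
      ⟨_, _, inferInstance, h2, Nat.sub_add_cancel h5⟩
    have := Nat.find_min' hex h7
    omega
  have h8 : IsIso (Abelian.image.ι l ≫ biprod.fst) := by
    have h9 := F.len_add hC (Fam.ses_epi (Abelian.image.ι l ≫ biprod.fst))
    simp only at h9
    have h10 : IsZero (kernel (Abelian.image.ι l ≫ biprod.fst)) :=
      (F.len_eq_zero_iff hC _).1 (by omega)
    have : Mono (Abelian.image.ι l ≫ biprod.fst) :=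
      Preadditive.mono_of_kernel_zero (h10.eq_of_src _ _)
    exact isIso_of_mono_of_epi _
  refine ⟨inv (Abelian.image.ι l ≫ biprod.fst) ≫ Abelian.image.ι l ≫ biprod.snd, ?_⟩
  calc p ≫ inv (Abelian.image.ι l ≫ biprod.fst) ≫ Abelian.image.ι l ≫ biprod.snd
      = (Abelian.factorThruImage l ≫ (Abelian.image.ι l ≫ biprod.fst)) ≫
        inv (Abelian.image.ι l ≫ biprod.fst) ≫ Abelian.image.ι l ≫ biprod.snd := by rw [h3]
    _ = (Abelian.factorThruImage l ≫ Abelian.image.ι l) ≫ biprod.snd := by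
        simp only [Category.assoc, IsIso.hom_inv_id_assoc]
    _ = g := by rw [Abelian.image.fac]; exact biprod.lift_snd _ _

/-- A projective cover `P` of a simple object `T`: a quotient of `P` is zero or has `T` as a
quotient. -/
theorem IsCov.isZero_or {P T : C} {e : P ⟶ T} (h : IsCov P T e) [Simple T] {Q : C} (p : P ⟶ Q)
    [Epi p] : IsZero Q ∨ ∃ q : Q ⟶ T, Epi q := by
  have := h.proj
  have := h.epi
  by_cases h1 : kernel.ι p ≫ e = 0
  · right
    refine ⟨Abelian.epiDesc p e h1, ?_⟩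
    have h2 := Abelian.comp_epiDesc p e h1
    have : Epi (p ≫ Abelian.epiDesc p e h1) := by rw [h2]; infer_instance
    exact epi_of_epi p _
  · left
    have := h.sub (kernel.ι p) h1
    rw [IsZero.iff_id_eq_zero, ← cancel_epi p, ← cancel_epi (kernel.ι p)]
    simp

end Quot

section Main

variable {k : Type*} [Field k] {Z : Type u} [Category.{v} Z] [Abelian Z] [Linear k Z]
  [MonoidalCategory Z] [MonoidalPreadditive Z] [MonoidalLinear k Z] [RigidCategory Z]

/-- Row A5a. The largest quotients in `S`. -/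
theorem exists_squot (hZ : IsFinite k Z) (F : Fam Z) (S : ObjectProperty Z) [hS : TensorSub S] :
    Nonempty (SQuot F S) := by
  have h : ∀ i, ∃ (Q : Z) (p : F.P i ⟶ Q), Epi p ∧ S Q ∧
      ∀ (Y : Z) (g : F.P i ⟶ Y), S Y → ∃ h, p ≫ h = g := by
    intro i
    refine exists_quot_of_finCat hZ.finCat (F.P i) (fun Y _ => S Y) ?_ ?_ ?_
    · intro Y hY
      have : Mono (0 : Y ⟶ 𝟙_ Z) := ⟨fun _ _ _ => hY.eq_of_tgt _ _⟩
      exact hS.sub (0 : Y ⟶ 𝟙_ Z) hS.unit
    · intro Y Y' g i hi h
      exact hS.sub i h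
    · intro Y Y' g g' h h'
      exact hS.biprod h h'
  choose Q p hp hQ hu using h
  exact ⟨⟨Q, p, hp, hQ, fun i X f hX => hu i X f hX⟩⟩

/-- Row A5b. The equality case: if `S ≤ S'` and `d(S)` is at least the sum of the
`d(T i) d(P i)` over the simple objects of `S'`, then `S = S'`. -/
theorem eq_of_dS (hZ : IsFinite k Z) (F : Fam Z) (D : Dim Z) (S S' : ObjectProperty Z)
    [hS : TensorSub S] [hS' : TensorSub S'] (hle : ∀ X, S X → S' X) (Q : SQuot F S)
    [DecidablePred fun i => S' (F.T i)]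
    (h : ∑ i with S' (F.T i), D.d (F.T i) * D.d (F.P i) ≤ dS D Q) (X : Z) (hX : S' X) : S X := by
  have hzS : ∀ i, ¬ S' (F.T i) → D.d (Q.Q i) = 0 := by
    intro i hi
    have := F.simple i
    have := Q.epi i
    rcases IsCov.isZero_or (F.cov i) (Q.p i) with h1 | ⟨q, hq⟩
    · exact D.zero h1
    · exact absurd (hle _ (hS.quot q (Q.mem i))) hi
  have hle1 : ∀ i, D.d (F.T i) * D.d (Q.Q i) ≤
      if S' (F.T i) then D.d (F.T i) * D.d (F.P i) else 0 := by
    intro i
    have := Q.epi i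
    split_ifs with hi
    · exact mul_le_mul_of_nonneg_left (D.epi (Q.p i)) (D.nonneg _)
    · rw [hzS i hi, mul_zero]
  rw [Finset.sum_filter] at h
  have heq : ∀ i, D.d (F.T i) * D.d (Q.Q i) =
      if S' (F.T i) then D.d (F.T i) * D.d (F.P i) else 0 := by
    have h1 := (Finset.sum_eq_sum_iff_of_le (s := Finset.univ) (fun i _ => hle1 i)).1
      (le_antisymm (Finset.sum_le_sum fun i _ => hle1 i) h)
    exact fun i => h1 i (Finset.mem_univ i)
  have hP : ∀ i, S' (F.T i) → S (F.P i) := by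
    intro i hi
    have := F.simple i
    have := Q.epi i
    have h1 := heq i
    rw [if_pos hi] at h1
    have h2 : 0 < D.d (F.T i) := D.pos _ (Simple.not_isZero _)
    have h3 : D.d (F.P i) ≤ D.d (Q.Q i) := (mul_left_cancel₀ h2.ne' h1).ge
    have := D.isIso_of_epi (Q.p i) h3
    exact hS.quot (inv (Q.p i)) (Q.mem i)
  refine F.induction_quot (k := k) hZ.finCat (Q := fun X => S' X → S X) ?_ ?_ X hX
  · intro Y hY _
    have : Mono (0 : Y ⟶ 𝟙_ Z) := ⟨fun _ _ _ => hY.eq_of_tgt _ _⟩
    exact hS.sub (0 : Y ⟶ 𝟙_ Z) hS.unit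
  · intro T hT h3 h1 h2
    have := hT.mono_f
    have := hT.epi_g
    have h4 : S T.X₁ := h1 (hS'.sub T.f h2)
    have h5 : S' T.X₃ := hS'.quot T.g h2
    obtain ⟨i, ⟨e⟩⟩ := F.all T.X₃ h3
    have h6 : S (F.P i) := hP i (hS'.quot e.hom h5)
    have := (F.cov i).proj
    have := (F.cov i).epi
    let u : F.P i ⟶ T.X₂ := Projective.factorThru (F.e i ≫ e.inv) T.g
    have hu : u ≫ T.g = F.e i ≫ e.inv := Projective.factorThru_comp _ _
    have h7 : Epi (biprod.desc T.f u) := by
      rw [Preadditive.epi_iff_cancel_zero]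
      intro W g hg
      have h8 : T.f ≫ g = 0 := by
        rw [← biprod.inl_desc T.f u, Category.assoc, hg, comp_zero]
      have h9 : u ≫ g = 0 := by
        rw [← biprod.inr_desc T.f u, Category.assoc, hg, comp_zero]
      have h10 : T.g ≫ hT.exact.desc g h8 = g := hT.exact.g_desc g h8
      have h11 : (F.e i ≫ e.inv) ≫ hT.exact.desc g h8 = 0 := by
        rw [← hu, Category.assoc, h10, h9]
      have h12 : Epi (F.e i ≫ e.inv) := epi_comp _ _
      have h13 : hT.exact.desc g h8 = 0 := by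
        rw [← cancel_epi (F.e i ≫ e.inv), h11, comp_zero]
      rw [← h10, h13, comp_zero]
    exact hS.quot (biprod.desc T.f u) (hS.biprod h4 h6)

end Main

end Pool.Agent.MDC
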