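import Pool.Agent.MDC.Defs

/-! # Row A7: the dimension of an invertible object is one -/

open CategoryTheory MonoidalCategory Limits

universe w v u

noncomputable section

namespace Pool.Agent.MDC

open MUG

section

variable {k : Type*} [Field k] {Z : Type u} [Category.{v} Z] [Abelian Z] [Linear k Z]
  [MonoidalCategory Z] [MonoidalPreadditive Z] [MonoidalLinear k Z] [RigidCategory Z]

/-- A nonzero object has dimension at least one. -/
theorem Dim.one_le (hZ : IsFinite k Z) (D : Dim Z) {X : Z} (hX : ¬ IsZero X) : 1 ≤ D.d X := by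
  have hs : Simple (𝟙_ Z) := hZ.unit
  have hne : η_ X (Xᘁ) ≠ 0 := by
    intro h0
    apply hX
    rw [IsZero.iff_id_eq_zero]
    have h := ExactPairing.evaluation_coevaluation X (Xᘁ)
    rw [h0, MonoidalPreadditive.zero_whiskerRight, zero_comp] at h
    rw [← cancel_epi (λ_ X).hom, comp_zero, Category.comp_id]
    rw [← cancel_mono (ρ_ X).inv, zero_comp]
    exact h.symm
  have hm : Mono (η_ X (Xᘁ)) := mono_of_nonzero_from_simple hne
  have h1 := D.mono (η_ X (Xᘁ))
  rw [D.one, D.mul, D.rdual] at h1
  have h2 := D.nonneg X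
  nlinarith

end

section

variable {k : Type*} [Field k] {Z : Type u} [Category.{v} Z] [Abelian Z] [Linear k Z]
  [MonoidalCategory Z] [MonoidalPreadditive Z] [MonoidalLinear k Z] [RigidCategory Z]
  [BraidedCategory Z]

/-- The dimension of an invertible object is one. -/
theorem Dim.invertible [IsAlgClosed k] (hZ : IsFinite k Z) (D : Dim Z) {c : Z}
    (hc : Invertible c) : D.d c = 1 := by
  obtain ⟨Y, ⟨e⟩⟩ := hc
  have h0 : D.d c * D.d Y = 1 := by rw [← D.mul, D.iso e, D.one]
  have hc' : ¬ IsZero c := fun h => by rw [D.zero h, zero_mul] at h0; exact zero_ne_one h0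
  have hY' : ¬ IsZero Y := fun h => by rw [D.zero h, mul_zero] at h0; exact zero_ne_one h0
  have h1 := D.one_le hZ hc'
  have h2 := D.one_le hZ hY'
  nlinarith

end

end Pool.Agent.MDC
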