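import Pool.Agent.MDC.Defs

/-! # Row B0, B1, B4: subobjects, factorisation and subadditivity in the relative centre -/

open CategoryTheory MonoidalCategory Limits

universe v u

set_option linter.unusedSectionVars false

noncomputable section

namespace Pool.Agent.MDC

open MUG

variable {k : Type*} [Field k] {Z : Type u} [Category.{v} Z] [Abelian Z] [Linear k Z]
  [MonoidalCategory Z] [MonoidalPreadditive Z] [MonoidalLinear k Z] [RigidCategory Z]
  [BraidedCategory Z]

/-- In a category with finite-dimensional Hom spaces a mono endomorphism is an isomorphism. -/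
theorem isIso_of_mono_end (hZ : IsFinite k Z) {X : Z} (f : X ⟶ X) [Mono f] : IsIso f := by
  have := hZ.hom_finite X X
  have hinj : Function.Injective (Linear.rightComp k X f) := by
    intro a b hab
    exact (cancel_mono f).1 hab
  have hsurj := LinearMap.injective_iff_surjective.1 hinj
  obtain ⟨g, hg⟩ := hsurj (𝟙 X)
  have hg' : g ≫ f = 𝟙 X := hg
  have : Epi f := epi_of_epi_fac hg'
  exact isIso_of_mono_of_epi f

/-- In a category with finite-dimensional Hom spaces a mono between isomorphic objects is an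
isomorphism. -/
theorem isIso_of_mono_iso (hZ : IsFinite k Z) {X Y : Z} (f : X ⟶ Y) [Mono f] (e : X ≅ Y) :
    IsIso f := by
  have : IsIso (f ≫ e.inv) := isIso_of_mono_end hZ _
  exact IsIso.of_isIso_comp_right f e.inv

theorem rc_mon_aux {S : ObjectProperty Z} {X : RC S} {K : Z} (i : K ⟶ X.X)
    (b : ∀ U, S U → (K ⊗ U ⟶ U ⊗ K))
    (hb : ∀ U hU, b U hU ≫ U ◁ i = i ▷ U ≫ (X.β U hU).hom) (U U' : Z) (h : S U) (h' : S U')
    (h'' : S (U ⊗ U')) :
    ((α_ _ _ _).inv ≫ (b U h ▷ U') ≫ (α_ _ _ _).hom ≫ (U ◁ b U' h') ≫ (α_ _ _ _).inv) ≫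
      (U ⊗ U') ◁ i = i ▷ (U ⊗ U') ≫ (X.β (U ⊗ U') h'').hom := by
  rw [X.monoidal U U' h h' h'']
  simp only [Category.assoc, MonoidalCategory.tensor_whiskerLeft, Iso.inv_hom_id_assoc]
  rw [← MonoidalCategory.whiskerLeft_comp_assoc, hb,
    MonoidalCategory.whiskerLeft_comp_assoc, ← MonoidalCategory.associator_naturality_middle_assoc,
    ← MonoidalCategory.comp_whiskerRight_assoc, hb, MonoidalCategory.comp_whiskerRight_assoc]
  simp

theorem rc_nat_aux {S : ObjectProperty Z} {X : RC S} {K : Z} (i : K ⟶ X.X)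
    (b : ∀ U, S U → (K ⊗ U ⟶ U ⊗ K))
    (hb : ∀ U hU, b U hU ≫ U ◁ i = i ▷ U ≫ (X.β U hU).hom) {U U' : Z} (h : S U) (h' : S U')
    (f : U ⟶ U') :
    (K ◁ f ≫ b U' h') ≫ U' ◁ i = (b U h ≫ f ▷ K) ≫ U' ◁ i := by
  have e1 : K ◁ f ≫ i ▷ U' = i ▷ U ≫ X.X ◁ f := whisker_exchange i f
  have e2 : U ◁ i ≫ f ▷ X.X = f ▷ K ≫ U' ◁ i := whisker_exchange f i
  calc (K ◁ f ≫ b U' h') ≫ U' ◁ i = K ◁ f ≫ (b U' h' ≫ U' ◁ i) := Category.assoc _ _ _
    _ = K ◁ f ≫ i ▷ U' ≫ (X.β U' h').hom := by rw [hb]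
    _ = (K ◁ f ≫ i ▷ U') ≫ (X.β U' h').hom := (Category.assoc _ _ _).symm
    _ = i ▷ U ≫ X.X ◁ f ≫ (X.β U' h').hom := by rw [e1, Category.assoc]
    _ = i ▷ U ≫ (X.β U h).hom ≫ f ▷ X.X := by rw [X.naturality h h']
    _ = (i ▷ U ≫ (X.β U h).hom) ≫ f ▷ X.X := (Category.assoc _ _ _).symm
    _ = b U h ≫ U ◁ i ≫ f ▷ X.X := by rw [← hb, Category.assoc]
    _ = (b U h ≫ f ▷ K) ≫ U' ◁ i := by rw [e2, Category.assoc]

/-- Row B0. A subobject stable under the half-braiding is a half-braided object. -/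
theorem exists_sub (hZ : IsFinite k Z) {S : ObjectProperty Z} (M : RC S) {K : Z} (i : K ⟶ M.X)
    [Mono i] (h : ∀ U (hU : S U), ∃ g : K ⊗ U ⟶ U ⊗ K,
      g ≫ (U ◁ i) = (i ▷ U) ≫ (M.β U hU).hom) :
    ∃ (K' : RC S) (e : K'.X = K) (j : K' ⟶ M), j.f = eqToHom e ≫ i := by
  choose b hb using h
  have hiso : ∀ U hU, IsIso (b U hU) := by
    intro U hU
    have h1 : Mono (b U hU ≫ (U ◁ i)) := by
      rw [hb]
      exact mono_comp _ _
    have h2 : Mono (b U hU) := mono_of_mono _ (U ◁ i)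
    exact isIso_of_mono_iso hZ (b U hU) (β_ K U)
  refine ⟨⟨K, fun U hU => @asIso _ _ _ _ (b U hU) (hiso U hU), ?_, ?_⟩, rfl, ⟨i, ?_⟩, ?_⟩
  · intro U U' h h' h''
    rw [← cancel_mono ((U ⊗ U') ◁ i)]
    exact (hb (U ⊗ U') h'').trans (rc_mon_aux i b hb U U' h h' h'').symm
  · intro U U' h h' f
    rw [← cancel_mono (U' ◁ i)]
    exact rc_nat_aux i b hb h h' f
  · intro U hU
    exact (hb U hU).symm
  · rw [eqToHom_refl, Category.id_comp]

/-- Row B1. Kernel-image factorisation of a map of half-braided objects. -/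
theorem exists_factor (hZ : IsFinite k Z) {S : ObjectProperty Z} {M N : RC S} (f : M ⟶ N) :
    ∃ (K I : RC S) (i : K ⟶ M) (p : M ⟶ I) (j : I ⟶ N) (w : i.f ≫ p.f = 0),
      (ShortComplex.mk i.f p.f w).ShortExact ∧ Mono j.f ∧ p ≫ j = f := by
  -- the kernel
  have hk : ∀ U (hU : S U), ∃ g : kernel f.f ⊗ U ⟶ U ⊗ kernel f.f,
      g ≫ (U ◁ kernel.ι f.f) = (kernel.ι f.f ▷ U) ≫ (M.β U hU).hom := by
    intro U hU
    have h1 : (kernel.ι f.f ▷ U ≫ (M.β U hU).hom) ≫ U ◁ f.f = 0 := by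
      rw [Category.assoc, ← f.comm, ← comp_whiskerRight_assoc, kernel.condition,
        MonoidalPreadditive.zero_whiskerRight, zero_comp]
    have h2 : ((ShortComplex.mk (kernel.ι f.f) f.f (kernel.condition f.f)).map
        (tensorLeft U)).Exact := (ShortComplex.exact_kernel f.f).map (tensorLeft U)
    have h3 : Mono ((ShortComplex.mk (kernel.ι f.f) f.f (kernel.condition f.f)).map
        (tensorLeft U)).f := inferInstanceAs (Mono (U ◁ kernel.ι f.f))
    exact ⟨h2.lift _ h1, h2.lift_f _ h1⟩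
  obtain ⟨K, e, i, hi⟩ := exists_sub hZ M (kernel.ι f.f) hk
  -- the image
  have him : ∀ U (hU : S U), ∃ g : Abelian.image f.f ⊗ U ⟶ U ⊗ Abelian.image f.f,
      g ≫ (U ◁ Abelian.image.ι f.f) = (Abelian.image.ι f.f ▷ U) ≫ (N.β U hU).hom := by
    intro U hU
    have h1 : ((Abelian.image.ι f.f ▷ U) ≫ (N.β U hU).hom) ≫ U ◁ cokernel.π f.f = 0 := by
      rw [← cancel_epi (Abelian.factorThruImage f.f ▷ U)]
      rw [comp_zero, Category.assoc, ← comp_whiskerRight_assoc, Abelian.image.fac,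
        ← Category.assoc, f.comm, Category.assoc, ← MonoidalCategory.whiskerLeft_comp,
        cokernel.condition, MonoidalPreadditive.whiskerLeft_zero, comp_zero]
    have h2 : ((ShortComplex.mk (Abelian.image.ι f.f) (cokernel.π f.f)
        (kernel.condition _)).map (tensorLeft U)).Exact :=
      (ShortComplex.exact_kernel (cokernel.π f.f)).map (tensorLeft U)
    have h3 : Mono ((ShortComplex.mk (Abelian.image.ι f.f) (cokernel.π f.f)
        (kernel.condition _)).map (tensorLeft U)).f :=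
      inferInstanceAs (Mono (U ◁ Abelian.image.ι f.f))
    exact ⟨h2.lift _ h1, h2.lift_f _ h1⟩
  obtain ⟨I, e', j, hj⟩ := exists_sub hZ N (Abelian.image.ι f.f) him
  obtain ⟨KX, Kβ, Km, Kn⟩ := K
  obtain ⟨IX, Iβ, Im, In⟩ := I
  simp only at e e'
  subst e e'
  rw [eqToHom_refl, Category.id_comp] at hi hj
  have hjm : Mono j.f := by rw [hj]; infer_instance
  have hfac : Abelian.factorThruImage f.f ≫ j.f = f.f := by rw [hj, Abelian.image.fac]
  refine ⟨_, _, i, RC.liftMono f j (Abelian.factorThruImage f.f) hfac, j, ?_, ?_, hjm, ?_⟩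
  · rw [hi, RC.liftMono_f, ← cancel_mono (Abelian.image.ι f.f), Category.assoc,
      Abelian.image.fac, kernel.condition, zero_comp]
  · have hw : kernel.ι f.f ≫ Abelian.factorThruImage f.f = 0 := by
      rw [← cancel_mono (Abelian.image.ι f.f), Category.assoc,
        Abelian.image.fac, kernel.condition, zero_comp]
    have hex : (ShortComplex.mk (kernel.ι f.f) (Abelian.factorThruImage f.f) hw).Exact :=
      ShortComplex.exact_of_f_is_kernel _
        (isKernelOfComp (Abelian.image.ι f.f) f.f (kernelIsKernel f.f) hw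
          (Abelian.image.fac f.f))
    have hse : (ShortComplex.mk (kernel.ι f.f) (Abelian.factorThruImage f.f) hw).ShortExact :=
      { exact := hex
        mono_f := inferInstanceAs (Mono (kernel.ι f.f))
        epi_g := inferInstanceAs (Epi (Abelian.factorThruImage f.f)) }
    simp only [hi]
    exact hse
  · exact RC.ext _ _ hfac

/-- Row B4. Subadditivity of `dim Hom(-, X)`. -/
theorem finrank_subadd (hZ : IsFinite k Z) {S : ObjectProperty Z} {K M N : RC S} (i : K ⟶ M)
    (p : M ⟶ N) (w : i.f ≫ p.f = 0) (hS : (ShortComplex.mk i.f p.f w).ShortExact) (X : RC S) :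
    Module.finrank k (M ⟶ X) ≤ Module.finrank k (K ⟶ X) + Module.finrank k (N ⟶ X) := by
  have h1 := hZ.hom_finite M.X X.X
  have h2 := hZ.hom_finite K.X X.X
  have h3 := hZ.hom_finite N.X X.X
  have h1' : Module.Finite k (M ⟶ X) := RC.finite_hom M X
  have h2' : Module.Finite k (K ⟶ X) := RC.finite_hom K X
  have h3' : Module.Finite k (N ⟶ X) := RC.finite_hom N X
  let r : (M ⟶ X) →ₗ[k] (K ⟶ X) := Linear.leftComp k X i
  let q : (N ⟶ X) →ₗ[k] (M ⟶ X) := Linear.leftComp k X p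
  have hker : LinearMap.ker r ≤ LinearMap.range q := by
    intro f hf
    have h4 : i ≫ f = 0 := hf
    have h5 : i.f ≫ f.f = 0 := by
      have := congrArg RC.Hom.f h4
      rwa [RC.comp_f, RC.zero_f] at this
    have hp : Epi p.f := hS.epi_g
    have h6 : p.f ≫ hS.exact.desc f.f h5 = f.f := hS.exact.g_desc _ _
    exact ⟨RC.descEpi f p _ h6, RC.ext _ _ h6⟩
  have h7 := LinearMap.finrank_range_add_finrank_ker r
  have h8 : Module.finrank k (LinearMap.range r) ≤ Module.finrank k (K ⟶ X) :=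
    Submodule.finrank_le _
  have h9 : Module.finrank k (LinearMap.ker r) ≤ Module.finrank k (LinearMap.range q) :=
    Submodule.finrank_mono hker
  have h10 : Module.finrank k (LinearMap.range q) ≤ Module.finrank k (N ⟶ X) :=
    LinearMap.finrank_range_le q
  omega

end Pool.Agent.MDC
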