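import Pool.Agent.MDC.A5

/-! # Row C1a of the count: largest quotients, killing a map by a small quotient -/

open CategoryTheory MonoidalCategory Limits ZeroObject

universe w v u

set_option linter.unusedSectionVars false

noncomputable section

namespace Pool.Agent.MDC

open MUG

variable {k : Type*} [Field k] {Z : Type u} [Category.{v} Z] [Abelian Z] [Linear k Z]
  [MonoidalCategory Z] [MonoidalPreadditive Z] [MonoidalLinear k Z] [RigidCategory Z]

/-- Row C1a. Largest quotient for a property of maps. -/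
theorem exists_quot (hZ : IsFinite k Z) (M : Z) (R : ∀ Y : Z, (M ⟶ Y) → Prop)
    (h0 : ∀ Y : Z, IsZero Y → R Y 0)
    (hmono : ∀ (Y Y' : Z) (g : M ⟶ Y) (i : Y ⟶ Y'), Mono i → R Y' (g ≫ i) → R Y g)
    (hprod : ∀ (Y Y' : Z) (g : M ⟶ Y) (g' : M ⟶ Y'), R Y g → R Y' g' →
      R (Y ⊞ Y') (biprod.lift g g')) :
    ∃ (C : Z) (p : M ⟶ C), Epi p ∧ R C p ∧ ∀ (Y : Z) (g : M ⟶ Y), R Y g → ∃ h, p ≫ h = g :=
  exists_quot_of_finCat hZ.finCat M R h0 hmono hprod

/-- The dimension of a cokernel. -/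
theorem Dim.le_cokernel (D : Dim Z) {X Y : Z} (f : X ⟶ Y) :
    D.d Y ≤ D.d (cokernel f) + D.d X := by
  have h1 := D.add (Fam.ses_mono (Abelian.image.ι f))
  simp only at h1
  have h2 : D.d (Abelian.image f) ≤ D.d X := D.epi (Abelian.factorThruImage f)
  have h3 : D.d (cokernel (Abelian.image.ι f)) ≤ D.d (cokernel f) := by
    have h5 : f ≫ cokernel.π (Abelian.image.ι f) = 0 := by
      have : Abelian.factorThruImage f ≫ Abelian.image.ι f ≫ cokernel.π (Abelian.image.ι f) =
          f ≫ cokernel.π (Abelian.image.ι f) := by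
        rw [← Category.assoc, Abelian.image.fac]
      rw [← this, cokernel.condition, comp_zero]
    have h6 : cokernel.π f ≫ cokernel.desc f (cokernel.π (Abelian.image.ι f)) h5 =
        cokernel.π (Abelian.image.ι f) := cokernel.π_desc _ _ _
    have : Epi (cokernel.π f ≫ cokernel.desc f (cokernel.π (Abelian.image.ι f)) h5) := by
      rw [h6]; infer_instance
    have : Epi (cokernel.desc f (cokernel.π (Abelian.image.ι f)) h5) :=
      epi_of_epi (cokernel.π f) _
    exact D.epi (cokernel.desc f (cokernel.π (Abelian.image.ι f)) h5)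
  linarith

/-- Row C1b. One step: a map `τ : T ⟶ L ⊗ C` is killed by a quotient of `C` of codimension at
most `d(L) d(T)`. -/
theorem exists_kill (hZ : IsFinite k Z) (D : Dim Z) {T L C : Z} (τ : T ⟶ L ⊗ C) :
    ∃ (C' : Z) (p : C ⟶ C'), Epi p ∧ τ ≫ (L ◁ p) = 0 ∧ D.d C ≤ D.d C' + D.d T * D.d L := by
  let m : (Lᘁ) ⊗ T ⟶ C := (tensorLeftHomEquiv T L (Lᘁ) C).symm τ
  refine ⟨cokernel m, cokernel.π m, inferInstance, ?_, ?_⟩
  · have h1 : (tensorLeftHomEquiv T L (Lᘁ) C) m = τ := Equiv.apply_symm_apply _ _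
    rw [← h1, ← tensorLeftHomEquiv_naturality, cokernel.condition]
    simp [tensorLeftHomEquiv]
  · have h2 := D.le_cokernel m
    rw [D.mul, D.rdual] at h2
    linarith [mul_comm (D.d L) (D.d T)]

end Pool.Agent.MDC
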