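import Pool.Agent.MDC.RCLin
import Pool.Agent.MUG.Mult
import Pool.Agent.MUG.Sub

/-! # Definitions for the count (project MDC)

`Dim Z`: a dimension function; `InjFam`: injective hulls of the simple objects; `SQuot`: the
largest quotients in `S` of the projective covers; `hh`: the function `h` on half-braided objects. -/

open CategoryTheory MonoidalCategory Limits

universe v u

set_option linter.unusedSectionVars false

noncomputable section

namespace Pool.Agent.MDC

open MUG

section DimSec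

variable {Z : Type u} [Category.{v} Z] [Abelian Z] [MonoidalCategory Z] [RigidCategory Z]

/-- A dimension function on a tensor category: additive on short exact sequences, multiplicative,
positive on nonzero objects, normalised, invariant under duals. -/
structure Dim (Z : Type u) [Category.{v} Z] [Abelian Z] [MonoidalCategory Z]
    [RigidCategory Z] where
  d : Z → ℝ
  iso : ∀ {X Y : Z}, (X ≅ Y) → d X = d Y
  add : ∀ {S : ShortComplex Z}, S.ShortExact → d S.X₂ = d S.X₁ + d S.X₃
  mul : ∀ X Y : Z, d (X ⊗ Y) = d X * d Y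
  pos : ∀ X : Z, ¬ IsZero X → 0 < d X
  one : d (𝟙_ Z) = 1
  rdual : ∀ X : Z, d (Xᘁ) = d X
  ldual : ∀ X : Z, d (ᘁX) = d X

namespace Dim

variable (D : Dim Z)

theorem zero {X : Z} (h : IsZero X) : D.d X = 0 := by
  have h1 := D.add (Fam.ses_mono (𝟙 X))
  have h2 : IsZero (cokernel (𝟙 X)) := by
    rw [IsZero.iff_id_eq_zero, ← cancel_epi (cokernel.π (𝟙 X))]
    rw [comp_zero, Category.comp_id, ← Category.id_comp (cokernel.π (𝟙 X)),
      cokernel.condition]
  have h3 : D.d (cokernel (𝟙 X)) = D.d X := D.iso (h2.iso h)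
  simp only at h1
  linarith

theorem nonneg (X : Z) : 0 ≤ D.d X := by
  by_cases h : IsZero X
  · exact (D.zero h).ge
  · exact (D.pos X h).le

theorem isZero_of_le {X : Z} (h : D.d X ≤ 0) : IsZero X := by
  by_contra hne
  exact absurd (D.pos X hne) (not_lt.2 h)

theorem mono {X Y : Z} (i : X ⟶ Y) [Mono i] : D.d X ≤ D.d Y := by
  have h := D.add (Fam.ses_mono i)
  have h2 := D.nonneg (cokernel i)
  simp only at h
  linarith

theorem epi {X Y : Z} (p : X ⟶ Y) [Epi p] : D.d Y ≤ D.d X := by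
  have h := D.add (Fam.ses_epi p)
  have h2 := D.nonneg (kernel p)
  simp only at h
  linarith

theorem isIso_of_mono {X Y : Z} (i : X ⟶ Y) [Mono i] (h : D.d Y ≤ D.d X) : IsIso i := by
  have h1 := D.add (Fam.ses_mono i)
  simp only at h1
  have h2 : IsZero (cokernel i) := D.isZero_of_le (by linarith)
  have : Epi i := Abelian.epi_of_cokernel_π_eq_zero i (h2.eq_of_tgt _ _)
  exact isIso_of_mono_of_epi i

theorem isIso_of_epi {X Y : Z} (p : X ⟶ Y) [Epi p] (h : D.d X ≤ D.d Y) : IsIso p := by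
  have h1 := D.add (Fam.ses_epi p)
  simp only at h1
  have h2 : IsZero (kernel p) := D.isZero_of_le (by linarith)
  have : Mono p := Preadditive.mono_of_kernel_zero (h2.eq_of_src _ _)
  exact isIso_of_mono_of_epi p

theorem biprod (X Y : Z) : D.d (X ⊞ Y) = D.d X + D.d Y := by
  have h : (ShortComplex.mk (biprod.inl : X ⟶ X ⊞ Y) (biprod.snd : X ⊞ Y ⟶ Y)
      (by simp)).ShortExact :=
    (ShortComplex.Splitting.mk (S := ShortComplex.mk (biprod.inl : X ⟶ X ⊞ Y)
      (biprod.snd : X ⊞ Y ⟶ Y) (by simp)) biprod.fst biprod.inr (by simp) (by simp)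
      (by simp)).shortExact
  exact D.add h

end Dim

end DimSec

section Fams

variable (k : Type*) [Field k] {Z : Type u} [Category.{v} Z] [Abelian Z] [Linear k Z]

/-- Injective hulls of the simple objects: `dim Hom(X, I i)` is the multiplicity of `T i` in
`X`. -/
structure InjFam (F : Fam Z) where
  I : Fin F.n → Z
  inj : ∀ i, Injective (I i)
  hom : ∀ i (X : Z), Module.finrank k (X ⟶ I i) = F.m k i X

/-- The largest quotients `Q i` in `S` of the projective covers `P i`. -/
structure SQuot (F : Fam Z) (S : ObjectProperty Z) where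
  Q : Fin F.n → Z
  p : ∀ i, F.P i ⟶ Q i
  epi : ∀ i, Epi (p i)
  mem : ∀ i, S (Q i)
  fac : ∀ i (X : Z) (f : F.P i ⟶ X), S X → ∃ g, p i ≫ g = f

end Fams

section Count

variable {k : Type*} [Field k] {Z : Type u} [Category.{v} Z] [Abelian Z] [Linear k Z]
  [MonoidalCategory Z] [MonoidalPreadditive Z] [MonoidalLinear k Z] [RigidCategory Z]
  [BraidedCategory Z]

instance wlMono (U : Z) {X Y : Z} (m : X ⟶ Y) [Mono m] : Mono (U ◁ m) :=
  inferInstanceAs (Mono ((tensorLeft U).map m))

instance wlEpi (U : Z) {X Y : Z} (m : X ⟶ Y) [Epi m] : Epi (U ◁ m) :=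
  inferInstanceAs (Epi ((tensorLeft U).map m))

instance wrMono (U : Z) {X Y : Z} (m : X ⟶ Y) [Mono m] : Mono (m ▷ U) :=
  inferInstanceAs (Mono ((tensorRight U).map m))

instance wrEpi (U : Z) {X Y : Z} (m : X ⟶ Y) [Epi m] : Epi (m ▷ U) :=
  inferInstanceAs (Epi ((tensorRight U).map m))

/-- A morphism which becomes half-braided after a half-braided monomorphism is half-braided. -/
@[simps]
def RC.liftMono {S : ObjectProperty Z} {K N N' : RC S} (f : K ⟶ N) (m : N' ⟶ N) [Mono m.f]
    (g : K.X ⟶ N'.X) (h : g ≫ m.f = f.f) : K ⟶ N' where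
  f := g
  comm U hU := by
    rw [← cancel_mono (U ◁ m.f), Category.assoc, Category.assoc, ← m.comm U hU,
      ← MonoidalCategory.comp_whiskerRight_assoc, ← MonoidalCategory.whiskerLeft_comp, h,
      f.comm U hU]

/-- A morphism which becomes half-braided after a half-braided epimorphism is half-braided. -/
@[simps]
def RC.descEpi {S : ObjectProperty Z} {K N N' : RC S} (f : N ⟶ K) (p : N ⟶ N') [Epi p.f]
    (g : N'.X ⟶ K.X) (h : p.f ≫ g = f.f) : N' ⟶ K where
  f := g
  comm U hU := by
    rw [← cancel_epi (p.f ▷ U), ← MonoidalCategory.comp_whiskerRight_assoc, h, f.comm U hU,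
      p.comm_assoc U hU, ← MonoidalCategory.whiskerLeft_comp, h]

/-- The natural map `X ⟶ X ⊗ M` given by `y : 1 ⟶ M` and the half-braiding. -/
def tt {S : ObjectProperty Z} (M : RC S) (y : 𝟙_ Z ⟶ M.X) (X : Z) (hX : S X) : X ⟶ X ⊗ M.X :=
  (λ_ X).inv ≫ (y ▷ X) ≫ (M.β X hX).hom

/-- The function `h(M) = ∑ i j, d i * d j * dim Hom(M, F(I i, I j))` on half-braided objects. -/
def hh {F : Fam Z} (D : Dim Z) (J : InjFam k F) {S : ObjectProperty Z} (M : RC S) : ℝ :=
  ∑ i, ∑ j, D.d (F.T i) * D.d (F.T j) *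
    (Module.finrank k (M ⟶ RC.FF S (J.I i) (J.I j)) : ℝ)

/-- `M` is a half-braided subobject of `F(A,B)`. -/
def IsSub {S : ObjectProperty Z} (A B : Z) (M : RC S) : Prop :=
  ∃ j : M ⟶ RC.FF S A B, Mono j.f

/-- The dimension of the subcategory `S`: `d(S) = ∑ i, d(T i) * d(Q i)`. -/
def dS {F : Fam Z} (D : Dim Z) {S : ObjectProperty Z} (Q : SQuot F S) : ℝ :=
  ∑ i, D.d (F.T i) * D.d (Q.Q i)

/-- The dimension of `Z`: `d(Z) = ∑ i, d(T i) * d(P i)`. -/
def dZ (F : Fam Z) (D : Dim Z) : ℝ := ∑ i, D.d (F.T i) * D.d (F.P i)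

end Count

end Pool.Agent.MDC
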