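import Pool.Agent.MUG.Leib

/-! # The relative centre

Copy of Mathlib's `Center` with the half-braidings restricted to the objects of a class `S`. -/

open CategoryTheory MonoidalCategory Limits

universe v u

set_option backward.isDefEq.respectTransparency.types false
set_option backward.defeqAttrib.useBackward true

noncomputable section

namespace Pool.Agent.MDC

/-- The relative centre: objects of `C` with a half-braiding with the objects of `S`. -/
structure RC {C : Type u} [Category.{v} C] [MonoidalCategory C] (S : ObjectProperty C) where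
  X : C
  β : ∀ U : C, S U → (X ⊗ U ≅ U ⊗ X)
  monoidal : ∀ (U U' : C) (h : S U) (h' : S U') (h'' : S (U ⊗ U')), (β (U ⊗ U') h'').hom =
      (α_ _ _ _).inv ≫
        ((β U h).hom ▷ U') ≫ (α_ _ _ _).hom ≫ (U ◁ (β U' h').hom) ≫ (α_ _ _ _).inv
  naturality : ∀ {U U' : C} (h : S U) (h' : S U') (f : U ⟶ U'),
      (X ◁ f) ≫ (β U' h').hom = (β U h).hom ≫ (f ▷ X)

namespace RC

variable {C : Type u} [Category.{v} C] [MonoidalCategory C] {S : ObjectProperty C}

/-- Morphisms of the relative centre. -/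
@[ext]
structure Hom (X Y : RC S) where
  f : X.X ⟶ Y.X
  comm : ∀ U (h : S U), (f ▷ U) ≫ (Y.β U h).hom = (X.β U h).hom ≫ (U ◁ f)

attribute [reassoc (attr := simp)] Hom.comm

instance : Quiver (RC S) where
  Hom := Hom

@[ext]
theorem ext {X Y : RC S} (f g : X ⟶ Y) (w : f.f = g.f) : f = g :=
  Hom.ext w

instance : Category (RC S) where
  id X := { f := 𝟙 X.X, comm := by intros; simp }
  comp f g := { f := f.f ≫ g.f, comm := by intros; simp }

@[simp]
theorem id_f (X : RC S) : Hom.f (𝟙 X) = 𝟙 X.X :=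
  rfl

@[simp]
theorem comp_f {X Y Z : RC S} (f : X ⟶ Y) (g : Y ⟶ Z) : (f ≫ g).f = f.f ≫ g.f :=
  rfl

/-- An isomorphism of the relative centre from a morphism whose underlying morphism is one. -/
@[simps]
def isoMk {X Y : RC S} (f : X ⟶ Y) [IsIso f.f] : X ≅ Y where
  hom := f
  inv := ⟨inv f.f,
    fun U h => by simp [← cancel_epi (f.f ▷ U), ← comp_whiskerRight_assoc,
      ← MonoidalCategory.whiskerLeft_comp] ⟩

instance isIso_of_f_isIso {X Y : RC S} (f : X ⟶ Y) [IsIso f.f] : IsIso f := by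
  change IsIso (isoMk f).hom
  infer_instance

set_option backward.defeqAttrib.useBackward true in
/-- Auxiliary definition for the monoidal structure. -/
@[simps X β]
def tensorObj (X Y : RC S) : RC S where
  X := X.X ⊗ Y.X
  β U h := α_ _ _ _ ≪≫ (whiskerLeftIso X.X (Y.β U h)) ≪≫ (α_ _ _ _).symm ≪≫
            (whiskerRightIso (X.β U h) Y.X) ≪≫ α_ _ _ _
  monoidal U U' h h' h'' := by
        dsimp only [Iso.trans_hom, whiskerLeftIso_hom, Iso.symm_hom, whiskerRightIso_hom]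
        rw [Y.monoidal U U' h h' h'', X.monoidal U U' h h' h'']
        calc
          _ = 𝟙 _ ⊗≫
            X.X ◁ (Y.β U h).hom ▷ U' ⊗≫
              (_ ◁ (Y.β U' h').hom ≫
                (X.β U h).hom ▷ _) ⊗≫
                  U ◁ (X.β U' h').hom ▷ Y.X ⊗≫ 𝟙 _ := by monoidal
          _ = _ := by rw [whisker_exchange]; monoidal
  naturality {U U'} h h' f := by
        dsimp only [Iso.trans_hom, whiskerLeftIso_hom, Iso.symm_hom, whiskerRightIso_hom]
        calc
          _ = 𝟙 _ ⊗≫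
            (X.X ◁ (Y.X ◁ f ≫ (Y.β U' h').hom)) ⊗≫
              (X.β U' h').hom ▷ Y.X ⊗≫ 𝟙 _ := by monoidal
          _ = 𝟙 _ ⊗≫
            X.X ◁ (Y.β U h).hom ⊗≫
              (X.X ◁ f ≫ (X.β U' h').hom) ▷ Y.X ⊗≫ 𝟙 _ := by
            rw [Y.naturality h h']; monoidal
          _ = _ := by rw [X.naturality h h']; monoidal

@[reassoc]
theorem whiskerLeft_comm (X : RC S) {Y₁ Y₂ : RC S} (f : Y₁ ⟶ Y₂) (U : C) (h : S U) :
    (X.X ◁ f.f) ▷ U ≫ ((tensorObj X Y₂).β U h).hom =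
      ((tensorObj X Y₁).β U h).hom ≫ U ◁ X.X ◁ f.f := by
  dsimp only [tensorObj_X, tensorObj_β, Iso.trans_hom, whiskerLeftIso_hom,
    Iso.symm_hom, whiskerRightIso_hom]
  calc
    _ = 𝟙 _ ⊗≫
      X.X ◁ (f.f ▷ U ≫ (Y₂.β U h).hom) ⊗≫
        (X.β U h).hom ▷ Y₂.X ⊗≫ 𝟙 _ := by monoidal
    _ = 𝟙 _ ⊗≫
      X.X ◁ (Y₁.β U h).hom ⊗≫
        ((X.X ⊗ U) ◁ f.f ≫ (X.β U h).hom ▷ Y₂.X) ⊗≫ 𝟙 _ := by
      rw [f.comm]; monoidal
    _ = _ := by rw [whisker_exchange]; monoidal

/-- Auxiliary definition for the monoidal structure. -/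
def whiskerLeft (X : RC S) {Y₁ Y₂ : RC S} (f : Y₁ ⟶ Y₂) :
    tensorObj X Y₁ ⟶ tensorObj X Y₂ where
  f := X.X ◁ f.f
  comm U h := whiskerLeft_comm X f U h

@[reassoc]
theorem whiskerRight_comm {X₁ X₂ : RC S} (f : X₁ ⟶ X₂) (Y : RC S) (U : C) (h : S U) :
    f.f ▷ Y.X ▷ U ≫ ((tensorObj X₂ Y).β U h).hom =
      ((tensorObj X₁ Y).β U h).hom ≫ U ◁ f.f ▷ Y.X := by
  dsimp only [tensorObj_X, tensorObj_β, Iso.trans_hom, whiskerLeftIso_hom,
    Iso.symm_hom, whiskerRightIso_hom]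
  calc
    _ = 𝟙 _ ⊗≫
      (f.f ▷ (Y.X ⊗ U) ≫ X₂.X ◁ (Y.β U h).hom) ⊗≫
        (X₂.β U h).hom ▷ Y.X ⊗≫ 𝟙 _ := by monoidal
    _ = 𝟙 _ ⊗≫
      X₁.X ◁ (Y.β U h).hom ⊗≫
        (f.f ▷ U ≫ (X₂.β U h).hom) ▷ Y.X ⊗≫ 𝟙 _ := by
      rw [← whisker_exchange]; monoidal
    _ = _ := by rw [f.comm]; monoidal

/-- Auxiliary definition for the monoidal structure. -/
def whiskerRight {X₁ X₂ : RC S} (f : X₁ ⟶ X₂) (Y : RC S) :
    tensorObj X₁ Y ⟶ tensorObj X₂ Y where
  f := f.f ▷ Y.X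
  comm U h := whiskerRight_comm f Y U h

set_option backward.isDefEq.respectTransparency false in
/-- Auxiliary definition for the monoidal structure. -/
def tensorHom {X₁ Y₁ X₂ Y₂ : RC S} (f : X₁ ⟶ Y₁) (g : X₂ ⟶ Y₂) :
    tensorObj X₁ X₂ ⟶ tensorObj Y₁ Y₂ where
  f := f.f ⊗ₘ g.f
  comm U h := by
    rw [MonoidalCategory.tensorHom_def, comp_whiskerRight_assoc, whiskerLeft_comm,
      whiskerRight_comm_assoc, MonoidalCategory.whiskerLeft_comp]
    exact Category.assoc _ _ _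

section

/-- Auxiliary definition for the monoidal structure. -/
@[simps X β]
def tensorUnit : RC S where
  X := 𝟙_ C
  β U _ := λ_ U ≪≫ (ρ_ U).symm
  monoidal := by intros; simp
  naturality := by intros; simp

set_option backward.isDefEq.respectTransparency.types false in
set_option backward.defeqAttrib.useBackward true in
/-- Auxiliary definition for the monoidal structure. -/
def associatorHom (X Y Z : RC S) :
    tensorObj (tensorObj X Y) Z ⟶ tensorObj X (tensorObj Y Z) where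
  f := (α_ X.X Y.X Z.X).hom
  comm U h := by simp

set_option backward.isDefEq.respectTransparency.types false in
set_option backward.defeqAttrib.useBackward true in
/-- Auxiliary definition for the monoidal structure. -/
def leftUnitorHom (X : RC S) : tensorObj tensorUnit X ⟶ X where
  f := (λ_ X.X).hom
  comm U h := by simp

set_option backward.isDefEq.respectTransparency.types false in
set_option backward.defeqAttrib.useBackward true in
/-- Auxiliary definition for the monoidal structure. -/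
def rightUnitorHom (X : RC S) : tensorObj X tensorUnit ⟶ X where
  f := (ρ_ X.X).hom
  comm U h := by simp

/-- Auxiliary definition for the monoidal structure. -/
def associator (X Y Z : RC S) : tensorObj (tensorObj X Y) Z ≅ tensorObj X (tensorObj Y Z) :=
  @isoMk C _ _ S _ _ (associatorHom X Y Z)
    (show IsIso (α_ X.X Y.X Z.X).hom from inferInstance)

/-- Auxiliary definition for the monoidal structure. -/
def leftUnitor (X : RC S) : tensorObj tensorUnit X ≅ X :=
  @isoMk C _ _ S _ _ (leftUnitorHom X) (show IsIso (λ_ X.X).hom from inferInstance)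

/-- Auxiliary definition for the monoidal structure. -/
def rightUnitor (X : RC S) : tensorObj X tensorUnit ≅ X :=
  @isoMk C _ _ S _ _ (rightUnitorHom X) (show IsIso (ρ_ X.X).hom from inferInstance)

end

instance : MonoidalCategoryStruct (RC S) where
  tensorObj X Y := tensorObj X Y
  tensorHom f g := tensorHom f g
  whiskerLeft X _ _ f := whiskerLeft X f
  whiskerRight f Y := whiskerRight f Y
  tensorUnit := tensorUnit
  associator := associator
  leftUnitor := leftUnitor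
  rightUnitor := rightUnitor

@[simp] theorem tensor_X (X Y : RC S) : (X ⊗ Y).X = X.X ⊗ Y.X := rfl

@[simp] theorem unit_X : (𝟙_ (RC S)).X = 𝟙_ C := rfl

theorem tensor_β (X Y : RC S) (U : C) (h : S U) :
    (X ⊗ Y).β U h = α_ X.X Y.X U ≪≫ (whiskerLeftIso X.X (Y.β U h)) ≪≫
      (α_ X.X U Y.X).symm ≪≫ (whiskerRightIso (X.β U h) Y.X) ≪≫ α_ U X.X Y.X := rfl

theorem unit_β (U : C) (h : S U) : (𝟙_ (RC S)).β U h = λ_ U ≪≫ (ρ_ U).symm := rfl

@[simp] theorem whiskerLeft_f (X : RC S) {Y₁ Y₂ : RC S} (f : Y₁ ⟶ Y₂) :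
    (X ◁ f).f = X.X ◁ f.f := rfl

@[simp] theorem whiskerRight_f {X₁ X₂ : RC S} (f : X₁ ⟶ X₂) (Y : RC S) :
    (f ▷ Y).f = f.f ▷ Y.X := rfl

@[simp] theorem tensorHom_f {X₁ X₂ Y₁ Y₂ : RC S} (f : X₁ ⟶ Y₁) (g : X₂ ⟶ Y₂) :
    (f ⊗ₘ g).f = f.f ⊗ₘ g.f := rfl

@[simp] theorem associator_hom_f (X Y W : RC S) :
    (α_ X Y W).hom.f = (α_ X.X Y.X W.X).hom := rfl

@[simp] theorem leftUnitor_hom_f (X : RC S) : (λ_ X).hom.f = (λ_ X.X).hom := rfl

@[simp] theorem rightUnitor_hom_f (X : RC S) : (ρ_ X).hom.f = (ρ_ X.X).hom := rfl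

@[simp] theorem associator_inv_f (X Y W : RC S) :
    (α_ X Y W).inv.f = (α_ X.X Y.X W.X).inv := by
  have h := congrArg Hom.f (α_ X Y W).inv_hom_id
  rw [comp_f, associator_hom_f, id_f] at h
  exact (cancel_mono (α_ X.X Y.X W.X).hom).1 (h.trans (Iso.inv_hom_id _).symm)

@[simp] theorem leftUnitor_inv_f (X : RC S) : (λ_ X).inv.f = (λ_ X.X).inv := by
  have h := congrArg Hom.f (λ_ X).inv_hom_id
  rw [comp_f, leftUnitor_hom_f, id_f] at h
  exact (cancel_mono (λ_ X.X).hom).1 (h.trans (Iso.inv_hom_id _).symm)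

@[simp] theorem rightUnitor_inv_f (X : RC S) : (ρ_ X).inv.f = (ρ_ X.X).inv := by
  have h := congrArg Hom.f (ρ_ X).inv_hom_id
  rw [comp_f, rightUnitor_hom_f, id_f] at h
  exact (cancel_mono (ρ_ X.X).hom).1 (h.trans (Iso.inv_hom_id _).symm)

instance : MonoidalCategory (RC S) where
  tensorHom_def := by intros; ext; simp [MonoidalCategory.tensorHom_def]
  id_tensorHom_id := by intros; ext; simp
  tensorHom_comp_tensorHom := by intros; ext; simp
  whiskerLeft_id := by intros; ext; simp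
  id_whiskerRight := by intros; ext; simp
  associator_naturality := by intros; ext; simp
  leftUnitor_naturality := by intros; ext; simp
  rightUnitor_naturality := by intros; ext; simp
  pentagon := by intros; ext; simp
  triangle := by intros; ext; simp

/-- The half-braiding with the unit object. -/
theorem β_unit (X : RC S) (h : S (𝟙_ C)) (h' : S (𝟙_ C ⊗ 𝟙_ C)) :
    (X.β (𝟙_ C) h).hom = (ρ_ X.X).hom ≫ (λ_ X.X).inv := by
  have h1 := X.monoidal (𝟙_ C) (𝟙_ C) h h h'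
  have h2 := X.naturality h' h (λ_ (𝟙_ C)).hom
  rw [h1] at h2
  have h3 : (X.X ◁ (λ_ (𝟙_ C)).hom) ≫ (X.β (𝟙_ C) h).hom =
      ((α_ _ _ _).inv ≫ ((X.β (𝟙_ C) h).hom ▷ 𝟙_ C) ≫ (α_ _ _ _).hom ≫ (λ_ _).hom) ≫
        (X.β (𝟙_ C) h).hom := by
    rw [h2]
    simp only [Category.assoc]
    congr 3
    calc 𝟙_ C ◁ (X.β (𝟙_ C) h).hom ≫ (α_ (𝟙_ C) (𝟙_ C) X.X).inv ≫ (λ_ (𝟙_ C)).hom ▷ X.X
        = 𝟙_ C ◁ (X.β (𝟙_ C) h).hom ≫ (λ_ (𝟙_ C ⊗ X.X)).hom := by monoidal
      _ = _ := by rw [leftUnitor_naturality]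
  have h4 := (cancel_mono _).1 h3
  have h5 : (X.β (𝟙_ C) h).hom ▷ 𝟙_ C = (α_ _ _ _).hom ≫ (X.X ◁ (λ_ (𝟙_ C)).hom) ≫
      (λ_ _).inv ≫ (α_ _ _ _).inv := by
    rw [h4]
    simp
  have h6 : (X.β (𝟙_ C) h).hom = (ρ_ _).inv ≫ ((X.β (𝟙_ C) h).hom ▷ 𝟙_ C) ≫ (ρ_ _).hom := by
    simp
  rw [h6, h5]
  monoidal

/-- The forgetful functor. -/
@[simps]
def forget : RC S ⥤ C where
  obj X := X.X
  map f := f.f

instance : (forget (S := S)).Faithful where
  map_injective h := RC.ext _ _ h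

end RC

end Pool.Agent.MDC
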