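import Pool.Agent.MDC.RC

/-! # The relative centre: linear structure, the functors `ip`, `im`, exact pairings -/

open CategoryTheory MonoidalCategory Limits

universe v u

set_option backward.isDefEq.respectTransparency.types false
set_option backward.defeqAttrib.useBackward true

noncomputable section

namespace Pool.Agent.MDC

namespace RC

section Preadd

variable {C : Type u} [Category.{v} C] [MonoidalCategory C] {S : ObjectProperty C}
  [Preadditive C] [MonoidalPreadditive C]

instance (X Y : RC S) : Zero (X ⟶ Y) := ⟨⟨0, fun U h => by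
  rw [MonoidalPreadditive.zero_whiskerRight, MonoidalPreadditive.whiskerLeft_zero, zero_comp,
    comp_zero]⟩⟩

instance (X Y : RC S) : Add (X ⟶ Y) := ⟨fun f g => ⟨f.f + g.f, fun U h => by
  rw [MonoidalPreadditive.add_whiskerRight, MonoidalPreadditive.whiskerLeft_add,
    Preadditive.add_comp, Preadditive.comp_add, f.comm, g.comm]⟩⟩

theorem neg_whiskerRight' {X Y : C} (f : X ⟶ Y) (Z : C) : (-f) ▷ Z = -(f ▷ Z) :=
  (tensorRight Z).map_neg

theorem whiskerLeft_neg' {X Y : C} (f : X ⟶ Y) (Z : C) : Z ◁ (-f) = -(Z ◁ f) :=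
  (tensorLeft Z).map_neg

instance (X Y : RC S) : Neg (X ⟶ Y) := ⟨fun f => ⟨-f.f, fun U h => by
  rw [neg_whiskerRight', whiskerLeft_neg', Preadditive.neg_comp, Preadditive.comp_neg,
    f.comm]⟩⟩

theorem zero_f (X Y : RC S) : (0 : X ⟶ Y).f = 0 := rfl

theorem add_f {X Y : RC S} (f g : X ⟶ Y) : (f + g).f = f.f + g.f := rfl

theorem neg_f {X Y : RC S} (f : X ⟶ Y) : (-f).f = -f.f := rfl

instance (X Y : RC S) : AddCommGroup (X ⟶ Y) where
  add_assoc f g h := by ext; simp only [add_f, add_assoc]
  zero_add f := by ext; simp only [add_f, zero_f, zero_add]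
  add_zero f := by ext; simp only [add_f, zero_f, add_zero]
  nsmul := nsmulRec
  zsmul := zsmulRec
  neg_add_cancel f := by ext; simp only [add_f, neg_f, zero_f, neg_add_cancel]
  add_comm f g := by ext; simp only [add_f, add_comm]

instance : Preadditive (RC S) where
  add_comp _ _ _ f f' g := by ext; simp only [comp_f, add_f, Preadditive.add_comp]
  comp_add _ _ _ f g g' := by ext; simp only [comp_f, add_f, Preadditive.comp_add]

theorem sub_f {X Y : RC S} (f g : X ⟶ Y) : (f - g).f = f.f - g.f := by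
  rw [sub_eq_add_neg, add_f, neg_f, sub_eq_add_neg]

attribute [simp] zero_f add_f neg_f sub_f

instance : MonoidalPreadditive (RC S) where
  whiskerLeft_zero := by intros; ext; simp; rfl
  zero_whiskerRight := by intros; ext; simp; rfl
  whiskerLeft_add := by intros; ext; simp; rfl
  add_whiskerRight := by intros; ext; simp; rfl

instance : (forget (S := S)).Additive where

variable {k : Type*} [Field k] [Linear k C] [MonoidalLinear k C]

instance (X Y : RC S) : SMul k (X ⟶ Y) := ⟨fun a f => ⟨a • f.f, fun U h => by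
  rw [MonoidalLinear.smul_whiskerRight, MonoidalLinear.whiskerLeft_smul, Linear.smul_comp,
    Linear.comp_smul, f.comm]⟩⟩

@[simp] theorem smul_f {X Y : RC S} (a : k) (f : X ⟶ Y) : (a • f).f = a • f.f := rfl

instance (X Y : RC S) : Module k (X ⟶ Y) where
  one_smul f := by ext; simp
  mul_smul a b f := by ext; simp [mul_smul]
  smul_zero a := by ext; simp
  smul_add a f g := by ext; simp
  add_smul a b f := by ext; simp [add_smul]
  zero_smul f := by ext; simp

instance : Linear k (RC S) where
  smul_comp _ _ _ a f g := by ext; simp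
  comp_smul _ _ _ f a g := by ext; simp

instance : MonoidalLinear k (RC S) where
  whiskerLeft_smul := by intros; ext; simp; rfl
  smul_whiskerRight := by intros; ext; simp; rfl

/-- The forgetful map on morphisms, as a linear map. -/
@[simps]
def fLin (k : Type*) [Field k] [Linear k C] [MonoidalLinear k C] (X Y : RC S) :
    (X ⟶ Y) →ₗ[k] (X.X ⟶ Y.X) where
  toFun f := f.f
  map_add' _ _ := rfl
  map_smul' _ _ := rfl

theorem fLin_injective (X Y : RC S) : Function.Injective (fLin k X Y) :=
  fun _ _ h => RC.ext _ _ h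

theorem finite_hom (X Y : RC S) [Module.Finite k (X.X ⟶ Y.X)] : Module.Finite k (X ⟶ Y) :=
  Module.Finite.of_injective (fLin k X Y) (fLin_injective X Y)

theorem finrank_le (X Y : RC S) [Module.Finite k (X.X ⟶ Y.X)] :
    Module.finrank k (X ⟶ Y) ≤ Module.finrank k (X.X ⟶ Y.X) :=
  LinearMap.finrank_le_finrank_of_injective (fLin_injective X Y)

end Preadd

section Braided

variable {C : Type u} [Category.{v} C] [MonoidalCategory C] [BraidedCategory C]
  {S : ObjectProperty C}

/-- `A` with the half-braiding given by the braiding. -/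
@[simps]
def ip (S : ObjectProperty C) (A : C) : RC S where
  X := A
  β U _ := β_ A U
  monoidal U U' _ _ _ := by simp
  naturality _ _ f := by simp

/-- `B` with the half-braiding given by the inverse braiding. -/
@[simps]
def im (S : ObjectProperty C) (B : C) : RC S where
  X := B
  β U _ := (β_ U B).symm
  monoidal U U' _ _ _ := by simp
  naturality _ _ f := by simp

/-- Functoriality of `ip`. -/
@[simps]
def ipm (S : ObjectProperty C) {A A' : C} (f : A ⟶ A') : ip S A ⟶ ip S A' where
  f := f
  comm U _ := by simp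

/-- Functoriality of `im`. -/
@[simps]
def imm (S : ObjectProperty C) {B B' : C} (f : B ⟶ B') : im S B ⟶ im S B' where
  f := f
  comm U _ := by simp

@[simp] theorem ipm_id (A : C) : ipm S (𝟙 A) = 𝟙 (ip S A) := rfl

@[simp] theorem imm_id (A : C) : imm S (𝟙 A) = 𝟙 (im S A) := rfl

@[reassoc (attr := simp)] theorem ipm_comp {A A' A'' : C} (f : A ⟶ A') (g : A' ⟶ A'') :
    ipm S f ≫ ipm S g = ipm S (f ≫ g) := rfl

@[reassoc (attr := simp)] theorem imm_comp {A A' A'' : C} (f : A ⟶ A') (g : A' ⟶ A'') :
    imm S f ≫ imm S g = imm S (f ≫ g) := rfl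

/-- `ip` is monoidal. -/
@[simps! hom_f inv_f]
def ipt (S : ObjectProperty C) (A B : C) : ip S (A ⊗ B) ≅ ip S A ⊗ ip S B where
  hom := ⟨𝟙 (A ⊗ B), fun U h => by simp [tensor_β]⟩
  inv := ⟨𝟙 (A ⊗ B), fun U h => by simp [tensor_β]⟩
  hom_inv_id := by ext; simp
  inv_hom_id := by ext; simp

/-- `im` is monoidal. -/
@[simps! hom_f inv_f]
def imt (S : ObjectProperty C) (A B : C) : im S (A ⊗ B) ≅ im S A ⊗ im S B where
  hom := ⟨𝟙 (A ⊗ B), fun U h => by simp [tensor_β]⟩
  inv := ⟨𝟙 (A ⊗ B), fun U h => by simp [tensor_β]⟩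
  hom_inv_id := by ext; simp
  inv_hom_id := by ext; simp

/-- `ip` preserves the unit. -/
@[simps! hom_f inv_f]
def ipu (S : ObjectProperty C) : ip S (𝟙_ C) ≅ 𝟙_ (RC S) where
  hom := ⟨𝟙 (𝟙_ C), fun U h => by simp [unit_β]⟩
  inv := ⟨𝟙 (𝟙_ C), fun U h => by simp [unit_β]⟩
  hom_inv_id := by ext; simp
  inv_hom_id := by ext; simp

/-- `im` preserves the unit. -/
@[simps! hom_f inv_f]
def imu (S : ObjectProperty C) : im S (𝟙_ C) ≅ 𝟙_ (RC S) where
  hom := ⟨𝟙 (𝟙_ C), fun U h => by simp [unit_β]⟩
  inv := ⟨𝟙 (𝟙_ C), fun U h => by simp [unit_β]⟩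
  hom_inv_id := by ext; simp
  inv_hom_id := by ext; simp

/-- Exact pairings are preserved by `ip`. -/
instance ipPair (S : ObjectProperty C) (A B : C) [ExactPairing A B] :
    ExactPairing (ip S A) (ip S B) where
  coevaluation' := (ipu S).inv ≫ ipm S (η_ A B) ≫ (ipt S A B).hom
  evaluation' := (ipt S B A).inv ≫ ipm S (ε_ A B) ≫ (ipu S).hom
  coevaluation_evaluation' := by
    ext
    simp
  evaluation_coevaluation' := by
    ext
    simp

/-- Exact pairings are preserved by `im`. -/
instance imPair (S : ObjectProperty C) (A B : C) [ExactPairing A B] :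
    ExactPairing (im S A) (im S B) where
  coevaluation' := (imu S).inv ≫ imm S (η_ A B) ≫ (imt S A B).hom
  evaluation' := (imt S B A).inv ≫ imm S (ε_ A B) ≫ (imu S).hom
  coevaluation_evaluation' := by
    ext
    simp
  evaluation_coevaluation' := by
    ext
    simp

/-- The object `F(A,B)`: `A ⊗ B` with the half-braiding of `ip A ⊗ im B`. -/
abbrev FF (S : ObjectProperty C) (A B : C) : RC S := ip S A ⊗ im S B

/-- Functoriality of `FF`. -/
abbrev FFm (S : ObjectProperty C) {A A' B B' : C} (f : A ⟶ A') (g : B ⟶ B') :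
    FF S A B ⟶ FF S A' B' := ipm S f ⊗ₘ imm S g

end Braided

end RC

end Pool.Agent.MDC
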