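import Pool.Agent.MDC.Defs

/-! # Utilities for the count -/

open CategoryTheory MonoidalCategory Limits

universe w v u

set_option linter.unusedSectionVars false

noncomputable section

namespace Pool.Agent.MDC

open MUG

variable {k : Type*} [Field k] {Z : Type u} [Category.{v} Z] [Abelian Z] [Linear k Z]
  [MonoidalCategory Z] [MonoidalPreadditive Z] [MonoidalLinear k Z] [RigidCategory Z]
  [BraidedCategory Z]

theorem hh_nonneg {F : Fam Z} (D : Dim Z) (J : InjFam k F) {S : ObjectProperty Z} (M : RC S) :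
    0 ≤ hh D J M := by
  refine Finset.sum_nonneg fun i _ => Finset.sum_nonneg fun j _ => ?_
  exact mul_nonneg (mul_nonneg (D.nonneg _) (D.nonneg _)) (Nat.cast_nonneg _)

/-- The dimension is determined by the multiplicities. -/
theorem Dim.eq_sum [IsAlgClosed k] (hZ : IsFinite k Z) (F : Fam Z) (D : Dim Z) (X : Z) :
    D.d X = ∑ i, (F.m k i X : ℝ) * D.d (F.T i) :=
  F.additive_eq (k := k) hZ.finCat D.d (fun _ _ ⟨e⟩ => D.iso e) (fun _ h => D.add h) X

/-- `dim Hom(-, W)` is subadditive in `Z`. -/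
theorem finrank_subadd_Z (hfin : ∀ X Y : Z, Module.Finite k (X ⟶ Y)) {T : ShortComplex Z}
    (hT : T.ShortExact) (W : Z) :
    Module.finrank k (T.X₂ ⟶ W) ≤ Module.finrank k (T.X₁ ⟶ W) + Module.finrank k (T.X₃ ⟶ W) := by
  have := hfin T.X₂ W
  have := hfin T.X₁ W
  have := hfin T.X₃ W
  have hepi := hT.epi_g
  have h1 := LinearMap.finrank_range_add_finrank_ker (Linear.leftComp k W T.f)
  have h2 : Module.finrank k (LinearMap.range (Linear.leftComp k W T.f)) ≤
      Module.finrank k (T.X₁ ⟶ W) := Submodule.finrank_le _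
  have h3 : LinearMap.ker (Linear.leftComp k W T.f) ≤ LinearMap.range (Linear.leftComp k W T.g) := by
    intro u hu
    have hu' : T.f ≫ u = 0 := hu
    exact ⟨hT.exact.desc u hu', hT.exact.g_desc u hu'⟩
  have h4 := (Submodule.finrank_mono h3).trans (LinearMap.finrank_range_le (Linear.leftComp k W T.g))
  omega

/-- `h(M) ≤ C d(M)` for some `C`. -/
theorem exists_const [IsAlgClosed k] (hZ : IsFinite k Z) {F : Fam Z} (D : Dim Z) (J : InjFam k F)
    (S : ObjectProperty Z) : ∃ C : ℝ, ∀ M : RC S, hh D J M ≤ C * D.d M.X := by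
  let φ : Z → ℝ := fun X => ∑ i, ∑ j, D.d (F.T i) * D.d (F.T j) *
    (Module.finrank k (X ⟶ J.I i ⊗ J.I j) : ℝ)
  have h1 : ∀ M : RC S, hh D J M ≤ φ M.X := by
    intro M
    refine Finset.sum_le_sum fun i _ => Finset.sum_le_sum fun j _ => ?_
    refine mul_le_mul_of_nonneg_left ?_ (mul_nonneg (D.nonneg _) (D.nonneg _))
    have := hZ.hom_finite M.X (RC.FF S (J.I i) (J.I j)).X
    exact_mod_cast RC.finrank_le (k := k) M (RC.FF S (J.I i) (J.I j))
  have h2 : ∀ X, φ X ≤ ∑ i, (F.m k i X : ℝ) * φ (F.T i) := by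
    intro X
    refine F.subadd_le (k := k) hZ.finCat φ ?_ ?_ ?_ X
    · rintro X Y ⟨e⟩
      refine Finset.sum_congr rfl fun i _ => Finset.sum_congr rfl fun j _ => ?_
      rw [Fam.finrank_congr_left (k := k) _ e]
    · intro X hX
      refine le_of_eq (Finset.sum_eq_zero fun i _ => Finset.sum_eq_zero fun j _ => ?_)
      have : Subsingleton (X ⟶ J.I i ⊗ J.I j) := ⟨fun f g => hX.eq_of_src f g⟩
      rw [Module.finrank_zero_of_subsingleton, Nat.cast_zero, mul_zero]
    · intro T hT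
      simp only [φ]
      rw [← Finset.sum_add_distrib]
      refine Finset.sum_le_sum fun a _ => ?_
      rw [← Finset.sum_add_distrib]
      refine Finset.sum_le_sum fun b _ => ?_
      rw [← mul_add]
      refine mul_le_mul_of_nonneg_left ?_ (mul_nonneg (D.nonneg _) (D.nonneg _))
      exact_mod_cast finrank_subadd_Z hZ.hom_finite hT (J.I a ⊗ J.I b)
  have hd : ∀ i, 0 < D.d (F.T i) := by
    intro i
    have := F.simple i
    exact D.pos _ (Simple.not_isZero _)
  refine ⟨∑ i, φ (F.T i) / D.d (F.T i), fun M => ?_⟩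
  refine ((h1 M).trans (h2 M.X)).trans ?_
  rw [Finset.sum_mul]
  refine Finset.sum_le_sum fun i _ => ?_
  have h3 : (F.m k i M.X : ℝ) * D.d (F.T i) ≤ D.d M.X := by
    rw [D.eq_sum hZ F M.X]
    exact Finset.single_le_sum (f := fun i => (F.m k i M.X : ℝ) * D.d (F.T i))
      (fun j _ => mul_nonneg (Nat.cast_nonneg _) (D.nonneg _)) (Finset.mem_univ i)
  have h4 : 0 ≤ φ (F.T i) := Finset.sum_nonneg fun a _ => Finset.sum_nonneg fun b _ =>
    mul_nonneg (mul_nonneg (D.nonneg _) (D.nonneg _)) (Nat.cast_nonneg _)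
  calc (F.m k i M.X : ℝ) * φ (F.T i)
      = φ (F.T i) / D.d (F.T i) * ((F.m k i M.X : ℝ) * D.d (F.T i)) := by
        field_simp [(hd i).ne']
    _ ≤ φ (F.T i) / D.d (F.T i) * D.d M.X :=
        mul_le_mul_of_nonneg_left h3 (div_nonneg h4 (hd i).le)

end Pool.Agent.MDC
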